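import Pool.Agent.H212AN.Bil

set_option autoImplicit false

/-!
# The spectrum determines the short lengths of discs with equal circular holes

Let `D` be an open disc minus `n ≥ 2` disjoint closed discs of the same radius, in any position, and
let `Ω` be any bounded plane domain with smooth boundary, all but finitely many of whose Dirichlet
eigenvalues agree with those of `D`. Then the shortest periodic billiard trajectories of `D` and of
`Ω` have the same length `ℓ`, and the length spectra agree below `3 ℓ / 2`, as long as no arithmetic
coincidence occurs: a number `s < 3 ℓ / 2` is a length for `D` if and only if it is one for `Ω`,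
provided that `√(R (4 r + y) / (r (2 (R - r) - y)))` is irrational for all lengths `y < s` of `D`.

Main idea. The heat expansion (proved in the same library) shows that `Ω` is a disc of the same
radius with `n` holes of the same radius `r`, and that the heat traces agree for all times. The heat
trace is `1 / (4 π t)` times the expected area of the set of positions of a random loop (a Brownian
bridge of duration `t`) in the domain. Loops which meet two boundary components at distance `x`
contribute `c(x) √t exp (- x ^ 2 / t) (1 + o(1))` with explicit constants `c(x)`, one for two holes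
and one for a hole and the outer circle; loops which meet three boundary components contribute less
than `exp (- (3 g / 2) ^ 2 / t)`, where `g` is the least distance, up to subexponential factors. So
the distances below `3 g / 2` are the same for `D` and `Ω`, with their types, as long as the quotient
of the two constants (the square root above) is irrational. Finally every periodic billiard
trajectory of length less than `3 g` is a bouncing ball trajectory between two components.
-/

open Set Metric Filter
open Pool.Agent.W594.AN (ClosedCurve dirichletEigenvalue)
open scoped ComplexConjugate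

namespace Pool.Agent.Results.MP_f623ad_an.ShortLengthsDiscsWithHoles

/-- A bounded plane domain with smooth boundary: a bounded connected open set whose boundary is the
union of finitely many disjoint embedded smooth closed curves. -/
def IsSmoothDomain (Ω : Set ℂ) : Prop :=
  IsOpen Ω ∧ IsConnected Ω ∧ Bornology.IsBounded Ω ∧ ∃ (n : ℕ) (c : Fin n → ClosedCurve),
    frontier Ω = (⋃ i, range (c i).γ) ∧
    Pairwise fun i j => Disjoint (range (c i).γ) (range (c j).γ)

/-- The direction from `p` to `q`. -/
noncomputable def direction (p q : ℂ) : ℂ := (q - p) / (‖q - p‖ : ℂ)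

/-- The law of reflection at a point where the boundary has the unit tangent vector `τ`: the
incoming direction `u` and the outgoing direction `v` have the same tangential component and
opposite normal components, which are not zero. -/
def Reflects (u v τ : ℂ) : Prop :=
  (conj τ * v).re = (conj τ * u).re ∧ (conj τ * v).im = -(conj τ * u).im ∧ (conj τ * u).im ≠ 0

/-- `p` is the sequence of the vertices of a periodic billiard trajectory in `Ω` (`k + 2` vertices,
indices modulo `k + 2`): the vertices are on the boundary, the open segments between consecutive
vertices are in `Ω`, and at each vertex the law of reflection holds, the unit tangent vector being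
that of a smooth closed curve contained in the boundary. -/
def IsTrajectory (Ω : Set ℂ) (k : ℕ) (p : Fin (k + 2) → ℂ) : Prop :=
  (∀ i, p i ∈ frontier Ω) ∧ (∀ i, openSegment ℝ (p i) (p (i + 1)) ⊆ Ω) ∧
  ∀ i, ∃ (c : ClosedCurve) (s : ℝ), range c.γ ⊆ frontier Ω ∧ c.γ s = p i ∧
    Reflects (direction (p (i - 1)) (p i)) (direction (p i) (p (i + 1))) (deriv c.γ s)

/-- The length spectrum. -/
def lengthSpectrum (Ω : Set ℂ) : Set ℝ :=
  {ℓ | ∃ (k : ℕ) (p : Fin (k + 2) → ℂ), IsTrajectory Ω k p ∧ ℓ = ∑ i, dist (p i) (p (i + 1))}

/-- `ball z R \ ⋃ i, closedBall (w i) r` is the disc of radius `R` with `n` holes of radius `r`. -/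
theorem result (n : ℕ) (hn : 2 ≤ n) (R r : ℝ) (hr : 0 < r) (hR : 0 < R) (z : ℂ) (w : Fin n → ℂ)
    (hw : ∀ i, closedBall (w i) r ⊆ ball z R)
    (hd : Pairwise fun i j => Disjoint (closedBall (w i) r) (closedBall (w j) r))
    (D : Set ℂ) (hD : D = ball z R \ ⋃ i, closedBall (w i) r)
    (Ω : Set ℂ) (hΩ : IsSmoothDomain Ω)
    (h : ∀ᶠ k in atTop, dirichletEigenvalue D k = dirichletEigenvalue Ω k) :
    ∃ ℓ : ℝ, 0 < ℓ ∧ IsLeast (lengthSpectrum D) ℓ ∧ IsLeast (lengthSpectrum Ω) ℓ ∧
      ∀ s : ℝ, s < 3 / 2 * ℓ →
        (∀ y ∈ lengthSpectrum D, y < s →
          Irrational (√(R * (4 * r + y) / (r * (2 * (R - r) - y))))) →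
        (s ∈ lengthSpectrum D ↔ s ∈ lengthSpectrum Ω) := by
  obtain ⟨h1, h2, h3, m, c, h4, h5⟩ := hΩ
  subst hD
  exact Pool.Agent.H212AN.bil_main hn hr hR hw hd ⟨h1, h2, h3, h4, h5⟩ h

end Pool.Agent.Results.MP_f623ad_an.ShortLengthsDiscsWithHoles
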